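import Pool.Agent.Helper7.BM.Goals2

/-!
# Project BM: the polynomial `σ(·,m)`
-/

set_option autoImplicit false

namespace Pool.Agent.Helper3.BM

open Pool.Agent.Helper7.BM
open Finset

theorem sgp_eval (m x : ℕ) : (sgp m).eval (x : ℤ) = sg x m := by
  simp [sgp, sg, Polynomial.eval_finsetSum]

theorem sgp_deriv_eval (m x : ℕ) : (sgp m).derivative.eval (x : ℤ) =
    ∑ i ∈ range (m + 1), (i : ℤ) * (x : ℤ) ^ (i - 1) := by
  simp [sgp, Polynomial.eval_finsetSum, Polynomial.derivative_X_pow]

theorem sgpol : StmtSGP := by
  refine ⟨fun m => ?_, sgp_eval, ?_, ?_, ?_, ?_⟩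
  · have hm : (sgp m).Monic := Polynomial.monic_geom_sum_X (n := m + 1) (by omega)
    refine ⟨hm, Polynomial.natDegree_eq_of_le_of_coeff_ne_zero ?_ ?_⟩
    · apply Polynomial.natDegree_sum_le_of_forall_le
      intro i hi
      rw [Polynomial.natDegree_X_pow]
      have := Finset.mem_range.mp hi
      omega
    · rw [sgp, Polynomial.finsetSum_coeff]
      simp [Polynomial.coeff_X_pow]
  · intro m x hm hx
    rw [sgp_deriv_eval]
    have hx' : (1 : ℤ) ≤ (x : ℤ) := by exact_mod_cast hx
    constructor
    · apply Finset.sum_pos'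
      · intro i _
        positivity
      · refine ⟨1, by simp; omega, by simp⟩
    · rw [Finset.sum_range_succ']
      simp only [Nat.cast_zero, zero_mul, add_zero]
      calc ∑ k ∈ range m, ((k + 1 : ℕ) : ℤ) * (x : ℤ) ^ (k + 1 - 1)
          ≤ ∑ k ∈ range m, (m : ℤ) * (x : ℤ) ^ m := by
            apply Finset.sum_le_sum
            intro k hk
            have hk' := Finset.mem_range.mp hk
            have h1 : ((k + 1 : ℕ) : ℤ) ≤ (m : ℤ) := by exact_mod_cast hk'
            have h2 : (x : ℤ) ^ (k + 1 - 1) ≤ (x : ℤ) ^ m := pow_le_pow_right₀ hx' (by omega)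
            exact mul_le_mul h1 h2 (by positivity) (by positivity)
        _ = (m : ℤ) ^ 2 * (x : ℤ) ^ m := by
            rw [Finset.sum_const, Finset.card_range, nsmul_eq_mul]; ring
  · intro m x y hm hx hxy
    rw [sg, sg]
    apply Finset.sum_lt_sum
    · intro i _
      exact Nat.pow_le_pow_left hxy.le i
    · exact ⟨1, by simp; omega, by simpa using hxy⟩
  · intro m n x hx hmn
    rw [sg, sg]
    apply Finset.sum_lt_sum_of_subset (i := n) (Finset.range_mono (by omega))
    · simp
    · simp; omega
    · positivity
    · intro i _ _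
      positivity
  · intro m x hx
    rw [sg]
    constructor
    · rw [Finset.sum_range_succ]
      exact Nat.le_add_left _ _
    · induction m with
      | zero => simp
      | succ m ih =>
        rw [Finset.sum_range_succ]
        have : 2 * x ^ m ≤ x ^ (m + 1) := by
          rw [pow_succ, mul_comm]
          exact Nat.mul_le_mul_left _ hx
        omega

end Pool.Agent.Helper3.BM
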