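import Pool.Agent.Helper7.BM.Goals

/-!
# Project BM: Siegel's lemma
-/

set_option autoImplicit false

namespace Pool.Agent.Helper3.BM

open Pool.Agent.Helper7.BM

attribute [local instance] Matrix.seminormedAddCommGroup

theorem sieg : StmtSIEG := by
  intro ι κ _ _ a B hB h2 h0 ha
  classical
  have hn1 : (1 : ℝ) ≤ (Fintype.card ι : ℝ) := by exact_mod_cast h0
  rcases Nat.eq_zero_or_pos (Fintype.card κ) with hk | hk
  · have hemp : IsEmpty κ := Fintype.card_eq_zero_iff.mp hk
    refine ⟨fun _ => 1, ?_, fun k => (hemp.false k).elim, fun i => ?_⟩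
    · intro h
      obtain ⟨i⟩ := Fintype.card_pos_iff.mp h0
      have := congrFun h i
      simp at this
    · simp only [Int.cast_one, abs_one]
      nlinarith
  · have hlt : Fintype.card κ < Fintype.card ι := by omega
    obtain ⟨c, hc0, hc1, hc2⟩ := Int.Matrix.exists_ne_zero_int_vec_norm_le (Matrix.of a) hlt hk
    refine ⟨c, hc0, fun k => ?_, fun i => ?_⟩
    · have := congrFun hc1 k
      simpa [Matrix.mulVec, dotProduct] using this
    · have h3 : |((c i : ℤ) : ℝ)| ≤ ‖c‖ := by
        have := norm_le_pi_norm c i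
        rwa [Int.norm_eq_abs] at this
      refine h3.trans (hc2.trans ?_)
      set n : ℝ := (Fintype.card ι : ℝ) with hn
      set m : ℝ := (Fintype.card κ : ℝ) with hm
      have h5 : (2 : ℝ) * m ≤ n := by rw [hn, hm]; exact_mod_cast h2
      have h6 : (1 : ℝ) ≤ m := by rw [hm]; exact_mod_cast hk
      have hA : ‖(Matrix.of a : Matrix κ ι ℤ)‖ ≤ B := by
        rw [Matrix.norm_le_iff (by linarith)]
        intro i j
        rw [Int.norm_eq_abs]
        exact ha i j
      have hmax : max 1 ‖(Matrix.of a : Matrix κ ι ℤ)‖ ≤ B := max_le hB hA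
      have hbase1 : (1 : ℝ) ≤ n * max 1 ‖(Matrix.of a : Matrix κ ι ℤ)‖ := by
        have : (1 : ℝ) ≤ max 1 ‖(Matrix.of a : Matrix κ ι ℤ)‖ := le_max_left _ _
        nlinarith
      have hexp : m / (n - m) ≤ 1 := by
        rw [div_le_one (by linarith)]
        linarith
      calc (n * max 1 ‖(Matrix.of a : Matrix κ ι ℤ)‖) ^ (m / (n - m))
          ≤ (n * max 1 ‖(Matrix.of a : Matrix κ ι ℤ)‖) ^ (1 : ℝ) :=
            Real.rpow_le_rpow_of_exponent_le hbase1 hexp
        _ = n * max 1 ‖(Matrix.of a : Matrix κ ι ℤ)‖ := Real.rpow_one _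
        _ ≤ n * B := by
            apply mul_le_mul_of_nonneg_left hmax (by linarith)

end Pool.Agent.Helper3.BM
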